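import Pool.Agent.H99.LU.CStmts
import Pool.Agent.H77.LU.POL

/-! Project LU, part C: module DIM. -/

set_option autoImplicit false

open scoped BigOperators Topology
open Filter Pool.H3.L2

noncomputable section

namespace Pool.LU

theorem dim_adj_symm {n : ℕ} {V : Type} (P : SPoly n V) {u v : V} (h : P.adj u v) : P.adj v u := by
  refine ⟨h.1.symm, ?_⟩
  rw [Set.pair_comm]
  exact h.2

/-- the vertices are in the nerve -/
theorem dim_single {n : ℕ} {V : Type} {P : SPoly n V} (hP : P.Good) (v : V) :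
    ∃ x ∈ P.cham, P.l v x = 0 := by
  obtain ⟨x, hx, h⟩ := hP.flag {v} (by
    intro a ha b hb hab
    rw [Set.mem_singleton_iff] at ha hb
    exact absurd (ha.trans hb.symm) hab)
  exact ⟨x, hx, h rfl⟩

theorem dim_ne {n : ℕ} {V : Type} {P : SPoly n V} (hP : P.Good) (v : V) : P.a v ≠ 0 := by
  obtain ⟨x, hx, h⟩ := dim_single hP v
  exact (hP.simple x hx).ne_zero (⟨v, h⟩ : P.sig x)

theorem dim : DIMStmt := by
  classical
  intro n V _ P hP
  refine ⟨?_, ?_, ?_⟩
  · intro σ hσ
    obtain ⟨x, hx, hsub⟩ := hP.flag (σ : Set V) (fun u hu v hv huv => hσ u hu v hv huv)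
    have h1 := (hP.simple x hx).comp (fun v : σ => (⟨v.1, hsub v.2⟩ : P.sig x))
      (fun a b hab => Subtype.ext (congrArg (fun z : P.sig x => z.1) hab))
    have h2 := h1.fintype_card_le_finrank
    rw [Fintype.card_coe] at h2
    refine h2.trans (le_of_eq ?_)
    show Module.finrank ℝ (Module.Dual ℝ (Fin n → ℝ)) = n
    rw [Subspace.dual_finrank_eq, Module.finrank_fin_fun]
  · intro hn
    by_contra hcon
    push Not at hcon
    obtain ⟨x, hx, hsub⟩ := hP.flag Set.univ (fun u _ v _ huv => hcon u v huv)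
    obtain ⟨d0, hd0⟩ := pol_prescribe (fun v : P.sig x => P.a v) (hP.simple x hx) (fun _ => 1)
    obtain ⟨d, hd1, hd2⟩ : ∃ d : Fin n → ℝ, d ≠ 0 ∧ ∀ v, 0 ≤ P.a v d := by
      by_cases hV : Nonempty V
      · obtain ⟨v⟩ := hV
        refine ⟨d0, ?_, fun v => ?_⟩
        · rintro rfl
          have := hd0 ⟨v, hsub (Set.mem_univ v)⟩
          simp at this
        · rw [hd0 ⟨v, hsub (Set.mem_univ v)⟩]
          exact zero_le_one
      · refine ⟨fun _ => 1, ?_, fun v => absurd ⟨v⟩ hV⟩
        intro h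
        have := congrFun h ⟨0, hn⟩
        simp at this
    obtain ⟨C, hC⟩ := hP.compact.isBounded.exists_norm_le
    have hd : 0 < ‖d‖ := norm_pos_iff.2 hd1
    have hC0 : 0 ≤ C := (norm_nonneg _).trans (hC x hx)
    set t : ℝ := (C + ‖x‖ + 1) / ‖d‖ with ht
    have ht0 : 0 ≤ t := by positivity
    have h1 : x + t • d ∈ P.cham := by
      intro v
      rw [pol_l_add]
      exact add_nonneg (hx v) (mul_nonneg ht0 (hd2 v))
    have h2 := hC _ h1
    have h3 : ‖t • d‖ ≤ ‖x + t • d‖ + ‖x‖ := by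
      have := norm_sub_le (x + t • d) x
      rwa [add_sub_cancel_left] at this
    rw [norm_smul, Real.norm_of_nonneg ht0, ht, div_mul_cancel₀ _ hd.ne'] at h3
    linarith
  · rintro rfl
    refine ⟨fun v => ?_⟩
    refine dim_ne hP v ?_
    ext i
    exact i.elim0

end Pool.LU
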