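import Pool.Agent.H46.LU.DIM

/-! Project LU, part C: module FCT (facets of simple polytopes). -/

set_option autoImplicit false

open scoped BigOperators Topology
open Filter Pool.H3.L2

noncomputable section

namespace Pool.LU

theorem fct_param {n : ℕ} (f : (Fin (n + 1) → ℝ) →ₗ[ℝ] ℝ) (hf : f ≠ 0) :
    ∃ L : (Fin n → ℝ) →ₗ[ℝ] (Fin (n + 1) → ℝ), Function.Injective L ∧
      (∀ t, f (L t) = 0) ∧ ∀ y, f y = 0 → ∃ t, L t = y := by
  have h1 := Module.Dual.finrank_ker_add_one_of_ne_zero (f := f) hf
  rw [Module.finrank_fin_fun] at h1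
  have h2 : Module.finrank ℝ (Fin n → ℝ) = Module.finrank ℝ ↥(LinearMap.ker f) := by
    rw [Module.finrank_fin_fun]
    omega
  let e := LinearEquiv.ofFinrankEq (R := ℝ) (Fin n → ℝ) ↥(LinearMap.ker f) h2
  refine ⟨(LinearMap.ker f).subtype ∘ₗ e.toLinearMap, ?_, ?_, ?_⟩
  · exact (Submodule.subtype_injective _).comp e.injective
  · intro t
    exact (e t).2
  · intro y hy
    refine ⟨e.symm ⟨y, hy⟩, ?_⟩
    show ((e (e.symm ⟨y, hy⟩) : ↥(LinearMap.ker f)) : Fin (n + 1) → ℝ) = y
    rw [LinearEquiv.apply_symm_apply]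

/-- a point of the hyperplane of `v` which satisfies the inequalities of the neighbours of `v` is
in the polytope -/
theorem fct_cut {n : ℕ} {V : Type} [Fintype V] {P : SPoly n V} (hP : P.Good) (v : V)
    (y : Fin n → ℝ) (hy : P.l v y = 0) (h : ∀ u, u ∈ Lk P.adj v → 0 ≤ P.l u y) : y ∈ P.cham := by
  classical
  by_contra hcon
  obtain ⟨q, hq, hqv⟩ := dim_single hP v
  have hbad : ∃ w, P.l w y < 0 := by
    by_contra hc
    push Not at hc
    exact hcon hc
  -- the parameter where the form `w` vanishes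
  set g : V → ℝ := fun w => P.l w q / (P.l w q - P.l w y) with hg
  set S : Finset V := Finset.univ.filter (fun w => P.l w y < 0) with hS
  have hSn : S.Nonempty := by
    obtain ⟨w, hw⟩ := hbad
    exact ⟨w, by rw [hS, Finset.mem_filter]; exact ⟨Finset.mem_univ _, hw⟩⟩
  obtain ⟨w, hwS, hmin⟩ := S.exists_min_image g hSn
  have hw : P.l w y < 0 := (Finset.mem_filter.1 hwS).2
  set s : ℝ := g w with hs
  have hq0 : ∀ u, 0 ≤ P.l u q := hq
  have hden : ∀ u, P.l u y < 0 → 0 < P.l u q - P.l u y := fun u hu => by linarith [hq0 u]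
  have hs0 : 0 ≤ s := div_nonneg (hq0 w) (hden w hw).le
  have hs1 : s ≤ 1 := (div_le_one (hden w hw)).2 (by linarith)
  set z : Fin n → ℝ := (1 - s) • q + s • y with hz
  have hl : ∀ u, P.l u z = (1 - s) * P.l u q + s * P.l u y := fun u =>
    pol_l_comb P u (1 - s) s (by ring) q y
  have hzP : z ∈ P.cham := by
    intro u
    rw [hl]
    by_cases hu : P.l u y < 0
    · have h1 : s ≤ g u := hmin u (Finset.mem_filter.2 ⟨Finset.mem_univ _, hu⟩)
      rw [hg, le_div_iff₀ (hden u hu)] at h1
      linarith
    · push Not at hu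
      exact add_nonneg (mul_nonneg (by linarith) (hq0 u)) (mul_nonneg hs0 hu)
  have hzw : P.l w z = 0 := by
    rw [hl]
    have h1 : s * (P.l w q - P.l w y) = P.l w q := by
      rw [hs, hg]
      exact div_mul_cancel₀ _ (hden w hw).ne'
    linarith
  have hzv : P.l v z = 0 := by
    rw [hl, hy, hqv]
    ring
  have hwv : w ≠ v := by
    rintro rfl
    linarith
  have hadj : P.adj w v := by
    refine ⟨hwv, z, hzP, ?_⟩
    rintro u (rfl | hu)
    · exact hzw
    · rw [Set.mem_singleton_iff] at hu
      rw [hu]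
      exact hzv
  exact absurd (h w ⟨hwv, hadj⟩) (not_le.2 hw)

theorem fct : FCTStmt := by
  classical
  intro n V _ P hP v
  obtain ⟨x0, hx0, hx0v⟩ := dim_single hP v
  obtain ⟨L, hLinj, hLv, hLsurj⟩ := fct_param (P.a v) (dim_ne hP v)
  set φ : (Fin n → ℝ) → (Fin (n + 1) → ℝ) := fun t => x0 + L t with hφ
  let P' : SPoly n {u // u ∈ Lk P.adj v} :=
    { a := fun u => (P.a u.1).comp L
      b := fun u => P.l u.1 x0 }
  have hl' : ∀ (u : {u // u ∈ Lk P.adj v}) (t : Fin n → ℝ), P'.l u t = P.l u.1 (φ t) := by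
    intro u t
    show P.a u.1 (L t) + P.l u.1 x0 = P.l u.1 (x0 + L t)
    unfold SPoly.l
    rw [map_add]
    ring
  have hφv : ∀ t, P.l v (φ t) = 0 := by
    intro t
    have : P.l v (φ t) = P.a v (L t) + P.l v x0 := by
      show P.l v (x0 + L t) = _
      unfold SPoly.l
      rw [map_add]
      ring
    rw [this, hLv, hx0v, add_zero]
  have hφs : ∀ y, P.l v y = 0 → ∃ t, φ t = y := by
    intro y hy
    obtain ⟨t, ht⟩ := hLsurj (y - x0) (by
      rw [map_sub]
      unfold SPoly.l at hy hx0v
      linarith)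
    refine ⟨t, ?_⟩
    show x0 + L t = y
    rw [ht]
    abel
  have hcham : ∀ t, t ∈ P'.cham ↔ φ t ∈ P.cham := by
    intro t
    constructor
    · intro ht
      refine fct_cut hP v (φ t) (hφv t) fun u hu => ?_
      rw [← hl' ⟨u, hu⟩]
      exact ht ⟨u, hu⟩
    · intro ht u
      rw [hl']
      exact ht u.1
  -- faces
  have hface : ∀ σ : Set {u // u ∈ Lk P.adj v}, P'.Face σ ↔
      P.Face (insert v (Subtype.val '' σ)) := by
    intro σ
    constructor
    · rintro ⟨t, ht, hsub⟩
      refine ⟨φ t, (hcham t).1 ht, ?_⟩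
      rintro u (rfl | ⟨a, ha, rfl⟩)
      · exact hφv t
      · have := hsub ha
        show P.l a.1 (φ t) = 0
        rw [← hl']
        exact this
    · rintro ⟨y, hy, hsub⟩
      obtain ⟨t, rfl⟩ := hφs y (hsub (Set.mem_insert _ _))
      refine ⟨t, (hcham t).2 hy, ?_⟩
      intro a ha
      show P'.l a t = 0
      rw [hl']
      exact hsub (Set.mem_insert_of_mem _ ⟨a, ha, rfl⟩)
  have hadj : P'.adj = fun a b => P.adj a.1 b.1 := by
    funext a b
    apply propext
    constructor
    · rintro ⟨h1, h2⟩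
      refine ⟨fun h => h1 (Subtype.ext h), ?_⟩
      obtain ⟨y, hy, hsub⟩ := (hface _).1 h2
      refine ⟨y, hy, ?_⟩
      rintro u (rfl | hu)
      · exact hsub (Set.mem_insert_of_mem _ ⟨a, Set.mem_insert _ _, rfl⟩)
      · rw [Set.mem_singleton_iff] at hu
        rw [hu]
        exact hsub (Set.mem_insert_of_mem _ ⟨b, Set.mem_insert_of_mem _ rfl, rfl⟩)
    · intro h
      refine ⟨fun hab => h.1 (congrArg Subtype.val hab), (hface _).2 ?_⟩
      refine hP.flag _ ?_
      have hav : P.adj a.1 v := a.2.2
      have hbv : P.adj b.1 v := b.2.2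
      rintro u (rfl | ⟨c, hc, rfl⟩) w (rfl | ⟨d, hd, rfl⟩) huw
      · exact absurd rfl huw
      · exact dim_adj_symm P d.2.2
      · exact c.2.2
      · rcases hc with rfl | hc <;> rcases hd with rfl | hd
        · exact absurd rfl huw
        · rw [Set.mem_singleton_iff] at hd
          rw [hd]
          exact h
        · rw [Set.mem_singleton_iff] at hc
          rw [hc]
          exact dim_adj_symm P h
        · rw [Set.mem_singleton_iff] at hc hd
          rw [hc, hd] at huw
          exact absurd rfl huw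
  refine ⟨P', ⟨?_, ?_, ?_⟩, hadj⟩
  · -- compact
    have hemb : Topology.IsClosedEmbedding φ := by
      have h1 : Topology.IsClosedEmbedding L :=
        LinearMap.isClosedEmbedding_of_injective (LinearMap.ker_eq_bot.2 hLinj)
      exact (Homeomorph.addLeft x0).isClosedEmbedding.comp h1
    have : P'.cham = φ ⁻¹' P.cham := by
      ext t
      exact hcham t
    rw [this]
    exact hemb.isCompact_preimage hP.compact
  · -- simple
    intro t ht
    have hs := hP.simple (φ t) ((hcham t).1 ht)
    -- the functionals of the facets of `P'` at `t` come from those of `P`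
    let ι : P'.sig t → P.sig (φ t) := fun u => ⟨u.1.1, by
      show P.l u.1.1 (φ t) = 0
      rw [← hl']
      exact u.2⟩
    have hι : Function.Injective ι := by
      intro a b hab
      have h1 : a.1.1 = b.1.1 := congrArg (fun z : P.sig (φ t) => z.1) hab
      exact Subtype.ext (Subtype.ext h1)
    have h1 : LinearIndependent ℝ (fun u : P'.sig t => P.a u.1.1) := hs.comp ι hι
    let D : Module.Dual ℝ (Fin (n + 1) → ℝ) →ₗ[ℝ] Module.Dual ℝ (Fin n → ℝ) := L.dualMap
    have h2 : (fun u : P'.sig t => P'.a u) = D ∘ (fun u : P'.sig t => P.a u.1.1) := by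
      funext u
      rfl
    rw [h2]
    refine h1.map ?_
    have hker : LinearMap.ker D ≤ Submodule.span ℝ {P.a v} := by
      intro f hf
      have hf0 : ∀ t', f (L t') = 0 := fun t' => by
        have : D f = 0 := hf
        exact congrArg (fun g : Module.Dual ℝ (Fin n → ℝ) => g t') this
      -- `f` vanishes on the kernel of `P.a v`
      obtain ⟨d, hd⟩ : ∃ d, P.a v d ≠ 0 := by
        by_contra hc
        push Not at hc
        exact dim_ne hP v (LinearMap.ext hc)
      rw [Submodule.mem_span_singleton]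
      refine ⟨f d / P.a v d, ?_⟩
      refine LinearMap.ext fun y => ?_
      obtain ⟨t', ht'⟩ := hLsurj (y - (P.a v y / P.a v d) • d) (by
        rw [map_sub, map_smul, smul_eq_mul, div_mul_cancel₀ _ hd, sub_self])
      have h3 := hf0 t'
      rw [ht', map_sub, map_smul, smul_eq_mul] at h3
      rw [LinearMap.smul_apply, smul_eq_mul]
      have h4 : f y = P.a v y / P.a v d * f d := by linarith
      rw [h4]
      field_simp
    refine Disjoint.mono_right hker ?_
    have h5 := hs.disjoint_span_image (s := Set.range ι) (t := {(⟨v, hφv t⟩ : P.sig (φ t))}) (by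
      rw [Set.disjoint_singleton_right]
      rintro ⟨u, hu⟩
      have h6 : u.1.1 = v := congrArg (fun z : P.sig (φ t) => z.1) hu
      exact u.1.2.1 h6)
    rw [Set.image_singleton] at h5
    have h7 : (fun w : P.sig (φ t) => P.a w) '' Set.range ι =
        Set.range (fun u : P'.sig t => P.a u.1.1) := by
      rw [← Set.range_comp]
      rfl
    rw [h7] at h5
    exact h5
  · -- flag
    intro σ hσ
    rw [hface]
    refine hP.flag _ ?_
    rintro u (rfl | ⟨c, hc, rfl⟩) w (rfl | ⟨d, hd, rfl⟩) huw
    · exact absurd rfl huw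
    · exact dim_adj_symm P d.2.2
    · exact c.2.2
    · have := hσ c hc d hd (fun h => huw (congrArg Subtype.val h))
      rw [hadj] at this
      exact this

end Pool.LU
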